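import Pool.Agent.Helper27.PB.Goals
import Pool.Agent.Helper36.Eps.Bas

/-!
# The zigzag chain with depths below the scale of the legs: packet LEGC
-/

open scoped ENNReal
open Finset

namespace Pool.Agent.Helper38.PB

open Pool.Agent.Helper92.Eps hiding Bas
open Pool.Agent.Helper99.ZZ
open Pool.Agent.Helper27.PB
open Helper36.Eps (iv_pos iv_neg iv_mono iv_le H_append iv_mul iv_congr GG_sum)

variable {B : Type} {D : ℕ} {A : Alph B D}

private theorem S_ne_zero (h : Ren A) (x : ℕ) : A.S x ≠ 0 :=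
  (lt_of_lt_of_le one_pos (h.S_one x)).ne'

private theorem S_ne_top (h : Ren A) (x : ℕ) : A.S x ≠ ⊤ :=
  ne_top_of_le_ne_top (ENNReal.add_ne_top.2 ⟨ENNReal.natCast_ne_top _, ENNReal.one_ne_top⟩)
    (h.S_le x)

private theorem S_dbl (h : ∀ n, RenAnti A n) (x : ℕ) : A.S (2 * x) ≤ 2 * A.S x := by
  rw [two_mul, two_mul]
  exact (h (x + x)).R7 x x le_rfl

private theorem S_eight (h : ∀ n, RenAnti A n) (k : ℕ) : A.S (2 ^ (k + 3)) ≤ 8 * A.S (2 ^ k) := by
  have e : 2 ^ (k + 3) = 2 * (2 * (2 * 2 ^ k)) := by ring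
  rw [e]
  calc A.S (2 * (2 * (2 * 2 ^ k))) ≤ 2 * A.S (2 * (2 * 2 ^ k)) := S_dbl h _
    _ ≤ 2 * (2 * A.S (2 * 2 ^ k)) := by gcongr; exact S_dbl h _
    _ ≤ 2 * (2 * (2 * A.S (2 ^ k))) := by gcongr; exact S_dbl h _
    _ = 8 * A.S (2 ^ k) := by ring

/-- `S (2^j) ≤ 8 S (2^m)` for `j ≤ m + 3`. -/
private theorem S_eight' (hr : Ren A) (h : ∀ n, RenAnti A n) {j m : ℕ} (hj : j ≤ m + 3) :
    A.S (2 ^ j) ≤ 8 * A.S (2 ^ m) :=
  (hr.S_mono _ _ (Nat.pow_le_pow_right (by norm_num) hj)).trans (S_eight h m)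

private theorem H_rbl {rbb : B → B} (hr : Rev A rbb) (l : List B) : A.H (rbl rbb l) = A.H l := by
  unfold rbl Alph.H
  rw [List.map_reverse, List.sum_reverse, List.map_map]
  congr 1
  exact List.map_congr_left fun b _ => hr.h b

/-- Mass of the lists in a window. -/
private noncomputable def WM (A : Alph B D) (lo I X : ℕ) : ℝ≥0∞ :=
  ∑' m : List B, iv (lo ≤ X + A.H m ∧ X + A.H m < lo + I) (A.W m)

private theorem WM_zero {lo I X : ℕ} (h : lo + I ≤ X) : WM A lo I X = 0 := by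
  unfold WM
  rw [ENNReal.tsum_eq_zero]
  intro m
  exact iv_neg (by omega) _

private theorem GS_one_le {r : ℕ} (hr : 1 ≤ r) (φ : List B → ℝ≥0∞) : GS A r φ = A.GG r φ := by
  unfold GS
  rw [if_neg (by omega)]

/-- Existence of the class. -/
private theorem Cl_exists {ρ k : ℕ} {p : List B} (hk : A.H p ≤ 2 ^ (k + 1)) (hρ : ρ ≤ k) :
    ∃ t, ρ + t ≤ k ∧ Cl A (2 ^ ρ) t p ∧ ∀ j, 2 ^ j < A.H p → j ≤ ρ + t := by
  by_cases h : A.H p ≤ 2 * 2 ^ ρ
  · refine ⟨0, by omega, Or.inl ⟨rfl, h⟩, fun j hj => ?_⟩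
    have h1 : 2 ^ j < 2 ^ (ρ + 1) := by
      rw [pow_succ]
      omega
    have := (Nat.pow_lt_pow_iff_right (by norm_num : 1 < 2)).1 h1
    omega
  · have h0 : 2 ^ (ρ + 1) < A.H p := by rw [pow_succ]; omega
    have hp1 : 1 < A.H p := lt_of_le_of_lt Nat.one_le_two_pow h0
    set c := Nat.clog 2 (A.H p) with hc
    have h1 : A.H p ≤ 2 ^ c := Nat.le_pow_clog (by norm_num) _
    have h2 : 2 ^ (c - 1) < A.H p := Nat.pow_pred_clog_lt_self (by norm_num) hp1
    have h3 : ρ + 1 < c := (Nat.pow_lt_pow_iff_right (by norm_num : 1 < 2)).1 (h0.trans_le h1)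
    have h4 : c ≤ k + 1 := Nat.clog_le_of_le_pow hk
    refine ⟨c - 1 - ρ, by omega, Or.inr ⟨by omega, ?_, ?_⟩, fun j hj => ?_⟩
    · rw [← pow_add, show c - 1 - ρ + ρ = c - 1 by omega]
      exact h2
    · rw [← pow_add, show c - 1 - ρ + 1 + ρ = c by omega]
      exact h1
    · have := (Nat.pow_lt_pow_iff_right (by norm_num : 1 < 2)).1 (hj.trans_le h1)
      omega

/-- Distribution to classes. -/
private theorem distr (hGSB : GSB_stmt) (hc : Calc A) {r : ℕ} (hr : 1 ≤ r) (F : List B → ℝ≥0∞)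
    (s : Finset ℕ) (hs : ∀ p, Stp A r p → F p ≠ 0 → ∃ t ∈ s, Cl A r t p) :
    GS A r F ≤ ∑ t ∈ s, GS A r (fun p => iv (Cl A r t p) (F p)) := by
  obtain ⟨g1, g2, g3, g4, g5, g6, g7⟩ := hGSB A hc
  calc GS A r F ≤ GS A r (fun p => ∑ t ∈ s, iv (Cl A r t p) (F p)) := by
        refine g4 _ _ _ fun p hp _ => ?_
        by_cases h0 : F p = 0
        · rw [h0]; exact zero_le
        · obtain ⟨t, ht, hC⟩ := hs p hp h0
          refine le_trans (le_of_eq (iv_pos hC _).symm)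
            (Finset.single_le_sum (f := fun t => iv (Cl A r t p) (F p)) (fun _ _ => zero_le) ht)
    _ = ∑ t ∈ s, GS A r (fun p => iv (Cl A r t p) (F p)) := by
        rw [GS_one_le hr, GG_sum hc]
        exact Finset.sum_congr rfl fun t _ => (GS_one_le hr _).symm

/-- The first sum of DEC. -/
private theorem first_eq (hGSB : GSB_stmt) (hc : Calc A) {rbb : B → B} (hr : Rev A rbb) (r : ℕ)
    (d : LG) (G : List B → ℝ≥0∞) (p : List B) :
    ∑' m : List B, A.W m * GS A r (fun p' => iv (okG A d (p ++ m ++ rbl rbb p')) (G p')) =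
      GS A r (fun p' => WM A d.lo d.I (A.H p + A.H p') * G p') := by
  obtain ⟨g1, g2, g3, g4, g5, g6, g7⟩ := hGSB A hc
  calc ∑' m : List B, A.W m * GS A r (fun p' => iv (okG A d (p ++ m ++ rbl rbb p')) (G p'))
      = ∑' m : List B, GS A r (fun p' => A.W m *
          iv (okG A d (p ++ m ++ rbl rbb p')) (G p')) :=
        tsum_congr fun m => (g5 _ _ _).symm
    _ = GS A r (fun p' => ∑' m : List B, A.W m *
          iv (okG A d (p ++ m ++ rbl rbb p')) (G p')) :=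
        (g6 r (List B) (fun m p' => A.W m * iv (okG A d (p ++ m ++ rbl rbb p')) (G p'))).symm
    _ = _ := by
        congr 1
        funext p'
        rw [WM, ← ENNReal.tsum_mul_right]
        refine tsum_congr fun m => ?_
        have e : okG A d (p ++ m ++ rbl rbb p') ↔ (d.lo ≤ A.H p + A.H p' + A.H m ∧
            A.H p + A.H p' + A.H m < d.lo + d.I) := by
          unfold okG
          rw [H_append, H_append, H_rbl hr, show A.H p + A.H m + A.H p' =
            A.H p + A.H p' + A.H m by ring]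
        by_cases h : okG A d (p ++ m ++ rbl rbb p')
        · rw [iv_pos h, iv_pos (e.1 h)]
        · rw [iv_neg h, iv_neg (fun h' => h (e.2 h')), mul_zero, zero_mul]

private theorem pow_ratio {γ τ : ℝ≥0∞} (t : ℕ) : (γ / τ) ^ t = γ ^ t * (τ ^ t)⁻¹ := by
  rw [div_eq_mul_inv, mul_pow, ENNReal.inv_pow]

private theorem M_le {M K γ τ S1 S2 : ℝ≥0∞} {t : ℕ} (h0 : S1 ≠ 0) (h1 : S1 ≠ ⊤) (hτ0 : τ ≠ 0)
    (hτ : τ ≠ ⊤) (h : M * S2 ≤ K * γ ^ t * S1) (hg : τ ^ t * S1 ≤ S2) :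
    M ≤ K * (γ / τ) ^ t := by
  have h2 : M * τ ^ t * S1 ≤ K * γ ^ t * S1 := by
    calc M * τ ^ t * S1 = M * (τ ^ t * S1) := by ring
      _ ≤ M * S2 := by gcongr
      _ ≤ _ := h
  have h3 : M * τ ^ t ≤ K * γ ^ t := (ENNReal.mul_le_mul_iff_left h0 h1).1 h2
  rw [pow_ratio, ← mul_assoc, ← div_eq_mul_inv]
  rw [ENNReal.le_div_iff_mul_le (Or.inl (pow_ne_zero _ hτ0)) (Or.inl (ENNReal.pow_ne_top hτ))]
  exact h3

private theorem M_le' {M K γ S1 S2 Sj : ℝ≥0∞} {t e : ℕ} (h0 : Sj ≠ 0) (h1 : Sj ≠ ⊤)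
    (hγ : 1 ≤ γ) (h : M * S2 ≤ K * γ ^ t * S1) (hg : Sj ≤ 8 * S2) (ht : t ≤ e + 1) :
    M ≤ 8 * γ * K * (γ ^ e * S1 / Sj) := by
  rw [← mul_div_assoc, ENNReal.le_div_iff_mul_le (Or.inl h0) (Or.inl h1)]
  calc M * Sj ≤ M * (8 * S2) := by gcongr
    _ = 8 * (M * S2) := by ring
    _ ≤ 8 * (K * γ ^ t * S1) := by gcongr
    _ ≤ 8 * (K * γ ^ (e + 1) * S1) := by gcongr
    _ = 8 * γ * K * (γ ^ e * S1) := by rw [pow_succ]; ring

private theorem geo (x : ℝ≥0∞) (n : ℕ) : ∑ t ∈ range n, x ^ t ≤ (1 - x)⁻¹ := by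
  rw [← ENNReal.tsum_geometric]
  exact ENNReal.sum_le_tsum _

private theorem five (c : ℝ≥0∞) (ρ j : ℕ) :
    ∑ t ∈ range (j + 2 - ρ), (if j ≤ ρ + t + 3 then c else 0) ≤ 5 * c := by
  rw [← Finset.sum_filter, Finset.sum_const, nsmul_eq_mul]
  gcongr
  have h : (range (j + 2 - ρ)).filter (fun t => j ≤ ρ + t + 3) ⊆
      Ico (j - 3 - ρ) (j + 2 - ρ) := by
    intro t ht
    rw [Finset.mem_filter, Finset.mem_range] at ht
    rw [Finset.mem_Ico]
    omega
  have h2 := Finset.card_le_card h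
  rw [Nat.card_Ico] at h2
  have h3 : ((range (j + 2 - ρ)).filter (fun t => j ≤ ρ + t + 3)).card ≤ 5 := by omega
  exact_mod_cast h3

/-- Tail of the blocks. -/
private theorem Fb_eight (hr : Ren A) (h : ∀ n, RenAnti A n) {j : ℕ} (hj : 3 ≤ j) :
    A.Fb (2 ^ (j - 3)) ≤ 8 / A.S (2 ^ j) := by
  rw [ENNReal.le_div_iff_mul_le (Or.inl (S_ne_zero hr _)) (Or.inl (S_ne_top hr _))]
  calc A.Fb (2 ^ (j - 3)) * A.S (2 ^ j) ≤ A.Fb (2 ^ (j - 3)) * (8 * A.S (2 ^ (j - 3))) := by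
        gcongr
        exact S_eight' hr h (by omega)
    _ = 8 * (A.Fb (2 ^ (j - 3)) * A.S (2 ^ (j - 3))) := by ring
    _ ≤ 8 * 1 := by gcongr; exact hr.R3 _
    _ = 8 := mul_one _

/-- Sum over the last block of a list which is higher than `2^(j-2)`. -/
private theorem last_le (hr : Ren A) (h : ∀ n, RenAnti A n) {j r : ℕ} (hj : 5 ≤ j)
    (hrj : r ≤ 2 ^ (j - 5)) {q : List B} (hq : A.H q ≤ r) :
    ∑' b, A.w b * iv (2 ^ (j - 2) < A.H (q ++ [b]) ∧ Tall A r (q ++ [b])) 1 ≤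
      8 / A.S (2 ^ j) := by
  refine le_trans ?_ (Fb_eight hr h (by omega))
  unfold Alph.Fb
  refine ENNReal.tsum_le_tsum fun b => ?_
  by_cases hb : 2 ^ (j - 3) < A.h b
  · rw [iv_pos hb]
    calc A.w b * iv _ 1 ≤ A.w b * 1 := by gcongr; exact iv_le _ _
      _ = A.w b := mul_one _
  · rw [iv_neg hb, iv_neg, mul_zero]
    rintro ⟨h1, -⟩
    rw [H_append] at h1
    have h2 : A.H [b] = A.h b := by simp [Alph.H]
    have h3 : 2 ^ (j - 2) = 2 * 2 ^ (j - 3) := by
      rw [← pow_succ']; congr 1; omega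
    have h4 : 2 ^ (j - 5) ≤ 2 ^ (j - 3) := Nat.pow_le_pow_right (by norm_num) (by omega)
    omega

/-- The mass of a class. -/
private noncomputable def Mt (A : Alph B D) (ρ : ℕ) (G : List B → ℝ≥0∞) (t : ℕ) : ℝ≥0∞ :=
  GS A (2 ^ ρ) (fun p => iv (Cl A (2 ^ ρ) t p) (G p))

private theorem Mt_geo {τ γ K : ℝ≥0∞} {Jm ρ : ℕ} {G : List B → ℝ≥0∞} (hB : Bas A τ)
    (hτ : τ ≠ ⊤) (hlt : γ < τ) (hBA : BA A γ Jm (2 ^ ρ) G K) {t : ℕ} (ht : ρ + t ≤ Jm) :
    Mt A ρ G t ≤ K * (γ / τ) ^ t := by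
  have h := hBA t (by rw [Nat.log_pow (by norm_num)]; exact ht)
  refine M_le (S_ne_zero hB.ren _) (S_ne_top hB.ren _) (ne_bot_of_gt hlt) hτ h ?_
  rw [← pow_add, add_comm t ρ]
  exact hB.gr ρ t

private theorem Mt_top {τ γ K : ℝ≥0∞} {Jm ρ j : ℕ} {G : List B → ℝ≥0∞} (hB : Bas A τ)
    (hγ : 1 ≤ γ) (hBA : BA A γ Jm (2 ^ ρ) G K) {t : ℕ} (ht : ρ + t ≤ Jm)
    (hj : j ≤ ρ + t + 3) (hj2 : ρ + t ≤ j + 1) :
    Mt A ρ G t ≤ 8 * γ * K * (γ ^ (j - ρ) * A.S (2 ^ ρ) / A.S (2 ^ j)) := by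
  have h := hBA t (by rw [Nat.log_pow (by norm_num)]; exact ht)
  refine M_le' (S_ne_zero hB.ren _) (S_ne_top hB.ren _) hγ h ?_ (by omega)
  rw [← pow_add, add_comm t ρ]
  exact S_eight' hB.ren hB.anti hj

private theorem dist2 (hGSB : GSB_stmt) (hc : Calc A) {ρ j lo I : ℕ} {G : List B → ℝ≥0∞}
    (hj : ρ + 5 ≤ j) (hhi : lo + I ≤ 2 ^ (j + 2)) (x : ℕ) (c : ℕ → ℝ≥0∞)
    (hcb : ∀ t < j + 2 - ρ, ∀ p, Cl A (2 ^ ρ) t p → WM A lo I (x + A.H p) ≤ c t) :
    GS A (2 ^ ρ) (fun p' => WM A lo I (x + A.H p') * G p') ≤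
      ∑ t ∈ range (j + 2 - ρ), c t * Mt A ρ G t := by
  obtain ⟨g1, g2, g3, g4, g5, g6, g7⟩ := hGSB A hc
  refine (distr hGSB hc Nat.one_le_two_pow _ (range (j + 2 - ρ)) ?_).trans ?_
  · intro p hp h0
    have h1 : A.H p ≤ 2 ^ (j + 1 + 1) := by
      by_contra h2
      apply h0
      rw [WM_zero, zero_mul]
      have e : 2 ^ (j + 1 + 1) = 2 ^ (j + 2) := rfl
      omega
    obtain ⟨t, ht, hC, -⟩ := Cl_exists (ρ := ρ) h1 (by omega)
    exact ⟨t, Finset.mem_range.2 (by omega), hC⟩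
  · refine Finset.sum_le_sum fun t ht => ?_
    rw [Mt, ← g5]
    refine g4 _ _ _ fun p _ _ => ?_
    by_cases hC : Cl A (2 ^ ρ) t p
    · rw [iv_pos hC, iv_pos hC]
      gcongr
      exact hcb t (Finset.mem_range.1 ht) p hC
    · rw [iv_neg hC]
      exact zero_le

/-- The sum over the middle part, all lists. -/
private theorem all_le (hWIN : WIN_stmt) (hGSB : GSB_stmt) {τ γ K : ℝ≥0∞} {Jm j ρ lo I : ℕ}
    {G : List B → ℝ≥0∞} (hB : Bas A τ) (hτ : τ ≠ ⊤) (hlt : γ < τ)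
    (hj : ρ + 5 ≤ j) (hjm : j + 3 ≤ Jm) (hhi : lo + I ≤ 2 ^ (j + 2))
    (hBA : BA A γ Jm (2 ^ ρ) G K) (x : ℕ) :
    GS A (2 ^ ρ) (fun p' => WM A lo I (x + A.H p') * G p') ≤
      A.S I * (K * (1 - γ / τ)⁻¹) := by
  refine (dist2 hGSB hB.cal hj hhi x (fun _ => A.S I) fun t _ p _ =>
    (hWIN A hB.cal hB.ren hB.anti lo I (x + A.H p)).1).trans ?_
  rw [← Finset.mul_sum]
  gcongr
  calc ∑ t ∈ range (j + 2 - ρ), Mt A ρ G t ≤ ∑ t ∈ range (j + 2 - ρ), K * (γ / τ) ^ t := by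
        refine Finset.sum_le_sum fun t ht => ?_
        rw [Finset.mem_range] at ht
        exact Mt_geo hB hτ hlt hBA (by omega)
    _ = K * ∑ t ∈ range (j + 2 - ρ), (γ / τ) ^ t := by rw [Finset.mul_sum]
    _ ≤ K * (1 - γ / τ)⁻¹ := by gcongr; exact geo _ _

/-- The sum over the middle part, low lists. -/
private theorem short_le (hWIN : WIN_stmt) (hGSB : GSB_stmt) {τ γ K : ℝ≥0∞} {Jm j ρ lo I : ℕ}
    {G : List B → ℝ≥0∞} (hB : Bas A τ) (hτ : τ ≠ ⊤) (hγ : 1 ≤ γ) (hlt : γ < τ)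
    (hj : ρ + 5 ≤ j) (hjm : j + 3 ≤ Jm) (hlo : 2 ^ j ≤ lo) (hhi : lo + I ≤ 2 ^ (j + 2))
    (hBA : BA A γ Jm (2 ^ ρ) G K) {x : ℕ} (hx : x ≤ 2 ^ (j - 2)) :
    GS A (2 ^ ρ) (fun p' => WM A lo I (x + A.H p') * G p') ≤
      I * A.u (2 ^ (j - 1)) * (K * (1 - γ / τ)⁻¹) +
      5 * (A.S I * (8 * γ * K * (γ ^ (j - ρ) * A.S (2 ^ ρ) / A.S (2 ^ j)))) := by
  have e1 : 2 ^ (j - 2) = 2 * 2 ^ (j - 3) := by rw [← pow_succ']; congr 1; omega
  have e2 : 2 ^ (j - 1) = 4 * 2 ^ (j - 3) := by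
    rw [show (4 : ℕ) = 2 ^ 2 by norm_num, ← pow_add]; congr 1; omega
  have e3 : 2 ^ j = 8 * 2 ^ (j - 3) := by
    rw [show (8 : ℕ) = 2 ^ 3 by norm_num, ← pow_add]; congr 1; omega
  refine (dist2 hGSB hB.cal hj hhi x
    (fun t => if j ≤ ρ + t + 3 then A.S I else I * A.u (2 ^ (j - 1))) fun t _ p hC => ?_).trans ?_
  · have hW := hWIN A hB.cal hB.ren hB.anti lo I (x + A.H p)
    show WM A lo I (x + A.H p) ≤ (if j ≤ ρ + t + 3 then A.S I else I * A.u (2 ^ (j - 1)))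
    split_ifs with h
    · exact hW.1
    · refine hW.2 (2 ^ (j - 1)) ?_
      have h1 : A.H p ≤ 2 ^ (t + 1) * 2 ^ ρ := by
        rcases hC with ⟨h2, h3⟩ | ⟨h2, h3, h4⟩
        · rw [h2, zero_add, pow_one]; exact h3
        · exact h4
      have h2 : 2 ^ (t + 1) * 2 ^ ρ ≤ 2 ^ (j - 3) := by
        rw [← pow_add]
        exact Nat.pow_le_pow_right (by norm_num) (by omega)
      omega
  · set X := A.S I * (8 * γ * K * (γ ^ (j - ρ) * A.S (2 ^ ρ) / A.S (2 ^ j))) with hX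
    set V := (I : ℝ≥0∞) * A.u (2 ^ (j - 1)) with hV
    calc ∑ t ∈ range (j + 2 - ρ), (if j ≤ ρ + t + 3 then A.S I else V) * Mt A ρ G t
        ≤ ∑ t ∈ range (j + 2 - ρ), (V * (K * (γ / τ) ^ t) +
            (if j ≤ ρ + t + 3 then X else 0)) := by
          refine Finset.sum_le_sum fun t ht => ?_
          rw [Finset.mem_range] at ht
          split_ifs with h
          · refine le_trans ?_ le_add_self
            rw [hX]
            gcongr
            exact Mt_top hB hγ hBA (by omega) h (by omega)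
          · rw [add_zero]
            gcongr
            exact Mt_geo hB hτ hlt hBA (by omega)
      _ = V * (K * ∑ t ∈ range (j + 2 - ρ), (γ / τ) ^ t) +
            ∑ t ∈ range (j + 2 - ρ), (if j ≤ ρ + t + 3 then X else 0) := by
          rw [Finset.sum_add_distrib, Finset.mul_sum, Finset.mul_sum]
      _ ≤ V * (K * (1 - γ / τ)⁻¹) + 5 * X := by
          gcongr
          · exact geo _ _
          · exact five X ρ j

/-- The mass of the lists of height about `2^j`. -/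
private theorem win_le (hGSB : GSB_stmt) {τ γ K : ℝ≥0∞} {Jm j ρ : ℕ}
    {G : List B → ℝ≥0∞} (hB : Bas A τ) (hγ : 1 ≤ γ)
    (hj : ρ + 5 ≤ j) (hjm : j + 3 ≤ Jm) (hBA : BA A γ Jm (2 ^ ρ) G K) :
    GS A (2 ^ ρ) (fun p => iv (2 ^ (j - 1) < A.H p ∧ A.H p ≤ 2 ^ (j + 2)) (G p)) ≤
      5 * (8 * γ * K * (γ ^ (j - ρ) * A.S (2 ^ ρ) / A.S (2 ^ j))) := by
  obtain ⟨g1, g2, g3, g4, g5, g6, g7⟩ := hGSB A hB.cal
  refine (distr hGSB hB.cal Nat.one_le_two_pow _
    ((range (j + 2 - ρ)).filter (fun t => j ≤ ρ + t + 3)) ?_).trans ?_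
  · intro p hp h0
    have h1 : 2 ^ (j - 1) < A.H p ∧ A.H p ≤ 2 ^ (j + 2) := by
      by_contra h2
      exact h0 (iv_neg h2 _)
    obtain ⟨t, ht, hC, hL⟩ := Cl_exists (ρ := ρ) (k := j + 1) h1.2 (by omega)
    have := hL _ h1.1
    exact ⟨t, Finset.mem_filter.2 ⟨Finset.mem_range.2 (by omega), by omega⟩, hC⟩
  · rw [Finset.sum_filter]
    refine le_trans (Finset.sum_le_sum fun t ht => ?_)
      (five (8 * γ * K * (γ ^ (j - ρ) * A.S (2 ^ ρ) / A.S (2 ^ j))) ρ j)
    rw [Finset.mem_range] at ht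
    split_ifs with h
    · refine le_trans ?_ (Mt_top hB hγ hBA (t := t) (by omega) h (by omega))
      rw [Mt]
      refine g4 _ _ _ fun p _ _ => iv_mono id fun _ => iv_le _ _
    · exact le_rfl

/-- The first corner has depth `0` or the leg is high. -/
private theorem stp_H {r : ℕ} {p : List B} (hr : r = 0) (hp : Stp A r p) : p = [] := by
  rcases hp with ⟨-, h⟩ | ⟨h, -⟩
  · exact h
  · omega

private theorem Adm.dep {Jm r : ℕ} {d : LG} (hd : Adm Jm r d) (hj : 5 ≤ d.j) :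
    DepOK (d.j - 5) r := by
  rcases hd.r1 with h | ⟨ρ, h, h'⟩
  · exact Or.inl h
  · exact Or.inr ⟨ρ, by omega, h⟩

private theorem Adm.dep' {Jm r : ℕ} {d : LG} (hd : Adm Jm r d) (hj : 5 ≤ d.j) :
    DepOK (d.j - 5) d.r := by
  rcases hd.r2 with h | ⟨ρ, h, h'⟩
  · exact Or.inl h
  · exact Or.inr ⟨ρ, by omega, h⟩

/-- Depth `0` at the second corner. -/
private theorem RF_zero {rbb : B → B} {d : LG} (hd : d.r = 0) (G : List B → ℝ≥0∞) (p : List B) :
    RF A (rbl rbb) (okG A) LG.r d G p = WM A d.lo d.I (A.H p) * G [] := by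
  unfold RF WM
  rw [← ENNReal.tsum_mul_right]
  refine tsum_congr fun t => ?_
  have e : okG A d (p ++ t) ↔ (d.lo ≤ A.H p + A.H t ∧ A.H p + A.H t < d.lo + d.I) := by
    unfold okG
    rw [H_append]
  have h2 : sl A (LG.r d) (rbl rbb (p ++ t)) = [] := by
    unfold sl
    rw [if_pos hd]
  rw [h2]
  by_cases h : okG A d (p ++ t)
  · rw [iv_pos h, iv_pos (e.1 h)]
  · rw [iv_neg h, iv_neg (fun h' => h (e.2 h')), zero_mul]

private theorem G_nil {γ K : ℝ≥0∞} {Jm r : ℕ} {G : List B → ℝ≥0∞} (hr : Ren A) (h0 : r = 0)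
    (hBA : BA A γ Jm r G K) : G [] ≤ K := by
  subst h0
  have h := hBA 0 (by simp)
  have e : GS A 0 (fun p => iv (Cl A 0 0 p) (G p)) = G [] := by
    unfold GS
    rw [if_pos rfl]
    exact iv_pos (Or.inl ⟨rfl, by simp [Alph.H]⟩) _
  rw [e, Nat.mul_zero, pow_zero, mul_one] at h
  exact (ENNReal.mul_le_mul_iff_left (S_ne_zero hr _) (S_ne_top hr _)).1 h

/-- The two sums of DEC. -/
private theorem RF_le (hDEC : DEC_stmt) (hGSB : GSB_stmt) {rbb : B → B} (hc : Calc A)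
    (hR : Rev A rbb) {Jm r : ℕ} {d : LG} (hd : Adm Jm r d) (hj : 5 ≤ d.j) (G : List B → ℝ≥0∞)
    {p : List B} (hp : Stp A r p) :
    RF A (rbl rbb) (okG A) LG.r d G p ≤
      GS A d.r (fun p' => WM A d.lo d.I (A.H p + A.H p') * G p') +
      ∑ c ∈ range (d.r + 1), A.RR c (fun q' => ∑' b, iv (p.getLast? = some b ∧ Tall A r p ∧
      Tall A d.r (q' ++ [rbb b]) ∧ okG A d (p ++ rbl rbb q')) (G (q' ++ [rbb b]))) := by
  have h := hDEC A rbb hc hR (d.j - 5) r d.r (okG A d) G p (Adm.dep hd hj) (Adm.dep' hd hj) ?_ hp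
  · rw [first_eq hGSB hc hR] at h
    exact h
  · intro l hl
    have h1 := hd.lo
    have h2 := hl.1
    have h3 : 2 ^ d.j = 32 * 2 ^ (d.j - 5) := by
      rw [show (32 : ℕ) = 2 ^ 5 by norm_num, ← pow_add]; congr 1; omega
    have h4 : 1 ≤ 2 ^ (d.j - 5) := Nat.one_le_two_pow
    omega

private theorem RR_zero (c : ℕ) (φ : List B → ℝ≥0∞) (h : ∀ q, A.H q = c → φ q = 0) :
    A.RR c φ = 0 := by
  unfold Alph.RR
  rw [ENNReal.tsum_eq_zero]
  intro l
  by_cases hl : A.H l = c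
  · rw [iv_pos hl, h l hl, mul_zero]
  · rw [iv_neg hl]

/-- The exact packet. -/
theorem LEGC (hWIN : WIN_stmt) (hDEC : DEC_stmt) (hGSB : GSB_stmt) : LEGC_stmt := by
  intro τ γ hτ hγ hlt
  set Cg : ℝ≥0∞ := (1 - γ / τ)⁻¹ with hCg
  have hτ0 : τ ≠ 0 := ne_bot_of_gt hlt
  have hCgt : Cg ≠ ⊤ := by
    rw [hCg, ENNReal.inv_ne_top]
    have h1 : γ / τ < 1 := by
      rw [ENNReal.div_lt_iff (Or.inl hτ0) (Or.inl hτ), one_mul]
      exact hlt
    exact (tsub_pos_of_lt h1).ne'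
  have hCg1 : 1 ≤ Cg := by
    rw [hCg, ENNReal.one_le_inv]
    exact tsub_le_self
  have hγt : γ ≠ ⊤ := ne_top_of_lt hlt
  refine ⟨8 * Cg + 40 * γ, ENNReal.add_ne_top.2 ⟨ENNReal.mul_ne_top (by norm_num) hCgt,
    ENNReal.mul_ne_top (by norm_num) hγt⟩, ?_⟩
  intro B D A rbb hB hR Jm r d G K hd hBA
  obtain ⟨g1, g2, g3, g4, g5, g6, g7⟩ := hGSB A hB.cal
  have hC1 : Cg ≤ 8 * Cg + 40 * γ := by
    calc Cg = 1 * Cg + 0 := by rw [one_mul, add_zero]
      _ ≤ 8 * Cg + 40 * γ := by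
        gcongr
        · norm_num
        · exact zero_le
  have hrj : r = 0 ∨ (5 ≤ d.j ∧ 1 ≤ r ∧ r ≤ 2 ^ (d.j - 5)) := by
    rcases hd.r1 with h | ⟨ρ, h, h'⟩
    · exact Or.inl h
    · refine Or.inr ⟨by omega, ?_, ?_⟩
      · rw [h]; exact Nat.one_le_two_pow
      · rw [h]; exact Nat.pow_le_pow_right (by norm_num) (by omega)
  have hlo := hd.lo
  refine ⟨?_, ?_⟩
  · -- short
    intro p hp hH
    rcases hd.r2 with h0 | ⟨ρ, h0, hρ⟩
    · rw [RF_zero h0]
      have hW := (hWIN A hB.cal hB.ren hB.anti d.lo d.I (A.H p)).2 (2 ^ (d.j - 1)) (by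
        rcases hrj with h | ⟨hj, -, -⟩
        · have : p = [] := stp_H h hp
          subst this
          have h2 : 2 ^ (d.j - 1) ≤ 2 ^ d.j := Nat.pow_le_pow_right (by norm_num) (by omega)
          have h3 : A.H [] = 0 := by simp [Alph.H]
          omega
        · have e1 : 2 ^ (d.j - 1) = 2 * 2 ^ (d.j - 2) := by rw [← pow_succ']; congr 1; omega
          have e2 : 2 ^ d.j = 4 * 2 ^ (d.j - 2) := by
            rw [show (4 : ℕ) = 2 ^ 2 by norm_num, ← pow_add]; congr 1; omega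
          omega)
      have hG := G_nil hB.ren h0 hBA
      calc WM A d.lo d.I (A.H p) * G [] ≤ d.I * A.u (2 ^ (d.j - 1)) * K := by
            gcongr
            exact hW
        _ = 1 * K * Vm A d := by rw [Vm]; ring
        _ ≤ (8 * Cg + 40 * γ) * K * (Vm A d +
            γ ^ (d.j - Nat.log 2 d.r) * A.S d.r * A.S d.I / A.S (2 ^ d.j)) := by
            gcongr
            · exact hCg1.trans hC1
            · exact le_self_add
    · have hj : 5 ≤ d.j := by omega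
      have hlog : Nat.log 2 d.r = ρ := by rw [h0, Nat.log_pow (by norm_num)]
      refine (RF_le hDEC hGSB hB.cal hR hd hj G hp).trans ?_
      have hsec : ∑ c ∈ range (d.r + 1), A.RR c (fun q' => ∑' b, iv (p.getLast? = some b ∧
          Tall A r p ∧ Tall A d.r (q' ++ [rbb b]) ∧ okG A d (p ++ rbl rbb q'))
          (G (q' ++ [rbb b]))) = 0 := by
        refine Finset.sum_eq_zero fun c hc => RR_zero _ _ fun q' hq' => ?_
        rw [ENNReal.tsum_eq_zero]
        intro b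
        refine iv_neg ?_ _
        rintro ⟨-, -, -, h1, -⟩
        rw [H_append, H_rbl hR, hq'] at h1
        rw [Finset.mem_range] at hc
        have e1 : 2 ^ (d.j - 2) = 8 * 2 ^ (d.j - 5) := by
          rw [show (8 : ℕ) = 2 ^ 3 by norm_num, ← pow_add]; congr 1; omega
        have e2 : 2 ^ d.j = 32 * 2 ^ (d.j - 5) := by
          rw [show (32 : ℕ) = 2 ^ 5 by norm_num, ← pow_add]; congr 1; omega
        have e3 : d.r ≤ 2 ^ (d.j - 5) := by
          rw [h0]; exact Nat.pow_le_pow_right (by norm_num) (by omega)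
        have e4 : 1 ≤ 2 ^ (d.j - 5) := Nat.one_le_two_pow
        omega
      rw [hsec, add_zero]
      have hBA' : BA A γ Jm (2 ^ ρ) G K := by rw [← h0]; exact hBA
      have h1 := short_le hWIN hGSB hB hτ hγ hlt hρ hd.jm hd.lo hd.hi hBA' hH
      rw [← h0] at h1
      refine h1.trans ?_
      rw [hlog, ← hCg]
      calc d.I * A.u (2 ^ (d.j - 1)) * (K * Cg) +
            5 * (A.S d.I * (8 * γ * K * (γ ^ (d.j - ρ) * A.S d.r / A.S (2 ^ d.j))))
          = Cg * (K * Vm A d) + 40 * γ * (K * (γ ^ (d.j - ρ) * A.S d.r * A.S d.I /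
              A.S (2 ^ d.j))) := by
            rw [Vm, div_eq_mul_inv, div_eq_mul_inv]; ring
        _ ≤ (8 * Cg + 40 * γ) * (K * Vm A d) + (8 * Cg + 40 * γ) * (K *
              (γ ^ (d.j - ρ) * A.S d.r * A.S d.I / A.S (2 ^ d.j))) := by
            gcongr
            exact le_add_self
        _ = _ := by ring
  · -- long
    intro q hq
    rcases hrj with hr0 | ⟨hj, hr1, hrj⟩
    · have h0 : ∑' b, A.w b * iv (2 ^ (d.j - 2) < A.H (q ++ [b]) ∧ Tall A r (q ++ [b]))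
          (RF A (rbl rbb) (okG A) LG.r d G (q ++ [b])) = 0 := by
        rw [ENNReal.tsum_eq_zero]
        intro b
        rw [iv_neg, mul_zero]
        rintro ⟨-, h1, -⟩
        omega
      rw [h0]
      exact zero_le
    have hlast := last_le hB.ren hB.anti hj hrj hq
    have hstp : ∀ b, Tall A r (q ++ [b]) → Stp A r (q ++ [b]) := by
      intro b hT
      refine Or.inr ⟨hr1, ?_, ?_⟩
      · rw [List.dropLast_concat]
        exact hq
      · have := hT.2
        omega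
    rcases hd.r2 with h0 | ⟨ρ, h0, hρ⟩
    · have hG := G_nil hB.ren h0 hBA
      calc ∑' b, A.w b * iv (2 ^ (d.j - 2) < A.H (q ++ [b]) ∧ Tall A r (q ++ [b]))
            (RF A (rbl rbb) (okG A) LG.r d G (q ++ [b]))
          ≤ ∑' b, (A.w b * iv (2 ^ (d.j - 2) < A.H (q ++ [b]) ∧ Tall A r (q ++ [b])) 1) *
            (A.S d.I * K) := by
            refine ENNReal.tsum_le_tsum fun b => ?_
            rw [mul_assoc, ← iv_mul, one_mul]
            gcongr
            refine iv_mono id fun _ => ?_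
            rw [RF_zero h0]
            gcongr
            exact (hWIN A hB.cal hB.ren hB.anti d.lo d.I _).1
        _ ≤ 8 / A.S (2 ^ d.j) * (A.S d.I * K) := by
            rw [ENNReal.tsum_mul_right]
            gcongr
        _ = 8 * 1 * K * (A.S d.I / A.S (2 ^ d.j)) := by
            rw [div_eq_mul_inv, div_eq_mul_inv]; ring
        _ ≤ (8 * Cg + 40 * γ) * K * ((A.S d.I + γ ^ (d.j - Nat.log 2 d.r) * A.S d.r) /
            A.S (2 ^ d.j)) := by
            gcongr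
            · exact le_trans (by gcongr) le_self_add
            · exact le_self_add
    · have hlog : Nat.log 2 d.r = ρ := by rw [h0, Nat.log_pow (by norm_num)]
      have hBA' : BA A γ Jm (2 ^ ρ) G K := by rw [← h0]; exact hBA
      have hr'1 : 1 ≤ d.r := by rw [h0]; exact Nat.one_le_two_pow
      have hr'2 : d.r ≤ 2 ^ (d.j - 5) := by
        rw [h0]; exact Nat.pow_le_pow_right (by norm_num) (by omega)
      -- the second sums
      have hsec : ∑' b, A.w b * iv (2 ^ (d.j - 2) < A.H (q ++ [b]) ∧ Tall A r (q ++ [b]))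
          (∑ c ∈ range (d.r + 1), A.RR c (fun q' => ∑' b', iv ((q ++ [b]).getLast? = some b' ∧
            Tall A r (q ++ [b]) ∧ Tall A d.r (q' ++ [rbb b']) ∧
            okG A d ((q ++ [b]) ++ rbl rbb q')) (G (q' ++ [rbb b'])))) ≤
          GS A (2 ^ ρ) (fun p => iv (2 ^ (d.j - 1) < A.H p ∧ A.H p ≤ 2 ^ (d.j + 2)) (G p)) := by
        rw [← h0, g3 _ _ hr'1]
        set φ : List B → ℝ≥0∞ := fun p =>
          iv (2 ^ (d.j - 1) < A.H p ∧ A.H p ≤ 2 ^ (d.j + 2)) (G p) with hφ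
        have hb : ∀ b, A.w b * iv (2 ^ (d.j - 2) < A.H (q ++ [b]) ∧ Tall A r (q ++ [b]))
            (∑ c ∈ range (d.r + 1), A.RR c (fun q' => ∑' b', iv ((q ++ [b]).getLast? = some b' ∧
            Tall A r (q ++ [b]) ∧ Tall A d.r (q' ++ [rbb b']) ∧
            okG A d ((q ++ [b]) ++ rbl rbb q')) (G (q' ++ [rbb b'])))) ≤
            ∑ c ∈ range (d.r + 1), A.RR c (fun q' => A.w (rbb b) *
              iv (d.r < c + A.h (rbb b)) (φ (q' ++ [rbb b]))) := by
          intro b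
          refine (mul_le_mul_right (iv_le _ _) (A.w b)).trans ?_
          rw [Finset.mul_sum]
          refine Finset.sum_le_sum fun c hc => ?_
          rw [← hB.cal.RR_smul]
          refine hB.cal.RR_mono _ _ _ fun q' hq' => ?_
          rw [hR.w]
          gcongr
          rw [tsum_eq_single b]
          · refine iv_mono ?_ ?_
            · rintro ⟨-, -, ⟨h1, h2⟩, -⟩
              rw [H_append] at h2
              have h3 : A.H [rbb b] = A.h (rbb b) := by simp [Alph.H]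
              omega
            · rintro ⟨-, -, ⟨h1, h2⟩, h3, h4⟩
              rw [hφ]
              simp only
              rw [iv_pos]
              rw [H_append, H_append, H_rbl hR] at h3 h4
              have h5 : A.H [rbb b] = A.h b := by simp [Alph.H, hR.h]
              have h6 : A.H [b] = A.h b := by simp [Alph.H]
              have h7 := hd.hi
              have e1 : 2 ^ (d.j - 1) = 16 * 2 ^ (d.j - 5) := by
                rw [show (16 : ℕ) = 2 ^ 4 by norm_num, ← pow_add]; congr 1; omega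
              have e2 : 2 ^ d.j = 32 * 2 ^ (d.j - 5) := by
                rw [show (32 : ℕ) = 2 ^ 5 by norm_num, ← pow_add]; congr 1; omega
              have e4 : 1 ≤ 2 ^ (d.j - 5) := Nat.one_le_two_pow
              rw [H_append, h5]
              rw [h6] at h3 h4
              constructor <;> omega
          · intro b' hb'
            refine iv_neg ?_ _
            rintro ⟨h1, -⟩
            rw [List.getLast?_concat] at h1
            exact hb' (Option.some.inj h1).symm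
        refine (ENNReal.tsum_le_tsum hb).trans (le_of_eq ?_)
        have he : Function.Bijective rbb := (show Function.Involutive rbb from hR.inv).bijective
        refine ((Equiv.ofBijective rbb he).tsum_eq (fun b => ∑ c ∈ range (d.r + 1),
          A.RR c (fun q' => A.w b * iv (d.r < c + A.h b) (φ (q' ++ [b]))))).trans ?_
        rw [Summable.tsum_finsetSum (fun _ _ => ENNReal.summable)]
        refine Finset.sum_congr rfl fun c _ => ?_
        exact (hB.cal.RR_tsum c B (fun b q' => A.w b * iv (d.r < c + A.h b)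
          (φ (q' ++ [b])))).symm
      have hwin := win_le hGSB hB hγ hρ hd.jm hBA'
      have hall : ∀ x, GS A (2 ^ ρ) (fun p' => WM A d.lo d.I (x + A.H p') * G p') ≤
          A.S d.I * (K * Cg) := fun x => all_le hWIN hGSB hB hτ hlt hρ hd.jm hd.hi hBA' x
      calc ∑' b, A.w b * iv (2 ^ (d.j - 2) < A.H (q ++ [b]) ∧ Tall A r (q ++ [b]))
            (RF A (rbl rbb) (okG A) LG.r d G (q ++ [b]))
          ≤ ∑' b, ((A.w b * iv (2 ^ (d.j - 2) < A.H (q ++ [b]) ∧ Tall A r (q ++ [b])) 1) *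
            (A.S d.I * (K * Cg)) +
            A.w b * iv (2 ^ (d.j - 2) < A.H (q ++ [b]) ∧ Tall A r (q ++ [b]))
          (∑ c ∈ range (d.r + 1), A.RR c (fun q' => ∑' b', iv ((q ++ [b]).getLast? = some b' ∧
            Tall A r (q ++ [b]) ∧ Tall A d.r (q' ++ [rbb b']) ∧
            okG A d ((q ++ [b]) ++ rbl rbb q')) (G (q' ++ [rbb b']))))) := by
            refine ENNReal.tsum_le_tsum fun b => ?_
            by_cases hT : 2 ^ (d.j - 2) < A.H (q ++ [b]) ∧ Tall A r (q ++ [b])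
            · rw [iv_pos hT, iv_pos hT, iv_pos hT, mul_one, ← mul_add]
              gcongr
              refine (RF_le hDEC hGSB hB.cal hR hd hj G (hstp b hT.2)).trans ?_
              gcongr
              rw [h0]
              exact hall _
            · rw [iv_neg hT, mul_zero]
              exact zero_le
        _ ≤ 8 / A.S (2 ^ d.j) * (A.S d.I * (K * Cg)) +
            5 * (8 * γ * K * (γ ^ (d.j - ρ) * A.S (2 ^ ρ) / A.S (2 ^ d.j))) := by
            rw [ENNReal.tsum_add, ENNReal.tsum_mul_right]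
            gcongr
            exact hsec.trans hwin
        _ = 8 * Cg * K * (A.S d.I / A.S (2 ^ d.j)) +
            40 * γ * K * (γ ^ (d.j - ρ) * A.S d.r / A.S (2 ^ d.j)) := by
            rw [h0, div_eq_mul_inv, div_eq_mul_inv, div_eq_mul_inv]; ring
        _ ≤ (8 * Cg + 40 * γ) * K * (A.S d.I / A.S (2 ^ d.j)) +
            (8 * Cg + 40 * γ) * K * (γ ^ (d.j - ρ) * A.S d.r / A.S (2 ^ d.j)) := by
            gcongr
            · exact le_self_add
            · exact le_add_self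
        _ = (8 * Cg + 40 * γ) * K * ((A.S d.I + γ ^ (d.j - Nat.log 2 d.r) * A.S d.r) /
            A.S (2 ^ d.j)) := by
            rw [hlog, ← mul_add, ENNReal.add_div]

end Pool.Agent.Helper38.PB
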